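import Mathlib

set_option autoImplicit false

namespace Pool.Agent.Results.MP_8766ea_co.PDDIncomplete

/-- The row of `p` in the cloud `C`: distances from `p` to the other points, sorted. -/
noncomputable def row (C : Finset (EuclideanSpace ℝ (Fin 2))) (p : EuclideanSpace ℝ (Fin 2)) :
    List ℝ :=
  open Classical in ((C.erase p).val.map (fun q => dist p q)).sort (· ≤ ·)

/-- The pointwise distance distribution: the multiset of all rows. -/
noncomputable def pdd (C : Finset (EuclideanSpace ℝ (Fin 2))) : Multiset (List ℝ) :=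
  C.val.map (row C)

/-- Embedding of the triangular lattice. -/
noncomputable def emb (p : ℤ × ℤ) : EuclideanSpace ℝ (Fin 2) :=
  !₂[(p.1 : ℝ) + (p.2 : ℝ) / 2, (p.2 : ℝ) * √3 / 2]

def qf (p q : ℤ × ℤ) : ℤ := (p.1 - q.1) ^ 2 + (p.1 - q.1) * (p.2 - q.2) + (p.2 - q.2) ^ 2

theorem dist_emb (p q : ℤ × ℤ) : dist (emb p) (emb q) = √(qf p q : ℝ) := by
  rw [EuclideanSpace.dist_eq]
  congr 1
  simp only [Fin.sum_univ_two, emb, qf, Real.dist_eq, sq_abs]
  have h3 : (√3 : ℝ) ^ 2 = 3 := Real.sq_sqrt (by norm_num)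
  simp only [Matrix.cons_val_zero, Matrix.cons_val_one]
  push_cast
  linear_combination ((p.2 : ℝ) - q.2) ^ 2 / 4 * h3

theorem qf_nonneg (p q : ℤ × ℤ) : 0 ≤ qf p q := by
  unfold qf
  nlinarith [sq_nonneg (p.1 - q.1), sq_nonneg (p.2 - q.2), sq_nonneg (p.1 - q.1 + (p.2 - q.2))]

theorem emb_inj : Function.Injective emb := by
  intro p q h
  have h0 : dist (emb p) (emb q) = 0 := by rw [h, dist_self]
  rw [dist_emb, Real.sqrt_eq_zero (by exact_mod_cast qf_nonneg p q)] at h0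
  have h1 : qf p q = 0 := by exact_mod_cast h0
  unfold qf at h1
  have e1 : p.1 - q.1 = 0 := by
    nlinarith [sq_nonneg (p.1 - q.1), sq_nonneg (p.2 - q.2), sq_nonneg (p.1 - q.1 + (p.2 - q.2))]
  have e2 : p.2 - q.2 = 0 := by
    nlinarith [sq_nonneg (p.1 - q.1), sq_nonneg (p.2 - q.2), sq_nonneg (p.1 - q.1 + (p.2 - q.2))]
  exact Prod.ext (by omega) (by omega)

def A : Finset (ℤ × ℤ) := {(0,0),(2,0),(3,0),(3,1),(1,2),(0,3),(2,3),(3,3),(2,4),(4,4)}
def B : Finset (ℤ × ℤ) := {(0,0),(2,0),(3,0),(2,1),(3,2),(0,3),(1,3),(3,3),(2,4),(4,4)}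

def ipdd (S : Finset (ℤ × ℤ)) : Multiset (Multiset ℤ) :=
  S.val.map (fun p => (S.erase p).val.map (qf p))

theorem ipdd_eq : ipdd A = ipdd B := by decide +kernel

theorem pdd_map (S : Finset (ℤ × ℤ)) :
    pdd (S.map ⟨emb, emb_inj⟩) =
      (ipdd S).map (fun r => (r.map (fun n : ℤ => √(n : ℝ))).sort (· ≤ ·)) := by
  unfold pdd ipdd
  rw [Finset.map_val, Multiset.map_map, Multiset.map_map]
  apply Multiset.map_congr rfl
  intro p _
  simp only [Function.comp, row, Function.Embedding.coeFn_mk]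
  congr 1
  have : (S.map ⟨emb, emb_inj⟩).erase (emb p) = (S.erase p).map ⟨emb, emb_inj⟩ := by
    classical
    exact (Finset.map_erase ⟨emb, emb_inj⟩ S p).symm
  rw [this, Finset.map_val, Multiset.map_map, Multiset.map_map]
  apply Multiset.map_congr rfl
  intro q _
  exact dist_emb p q

theorem no_quad : ∀ p ∈ B, ∀ q ∈ B, qf p q = 4 → ∀ r ∈ B, qf p r = 9 → qf q r = 1 →
    ∀ s ∈ B, ¬ (qf p s = 19 ∧ qf q s = 9 ∧ qf r s = 7) := by
  decide +kernel

/-- The pointwise distance distribution is not a complete isometry invariant of planar clouds. -/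
theorem result :
    ¬ ∀ (m : ℕ), 2 ≤ m → ∀ C C' : Finset (EuclideanSpace ℝ (Fin 2)),
      C.card = m → C'.card = m → pdd C = pdd C' →
      ∃ f : EuclideanSpace ℝ (Fin 2) ≃ᵢ EuclideanSpace ℝ (Fin 2),
        f '' (C : Set (EuclideanSpace ℝ (Fin 2))) = (C' : Set (EuclideanSpace ℝ (Fin 2))) := by
  intro h
  obtain ⟨f, hf⟩ := h 10 (by norm_num) (A.map ⟨emb, emb_inj⟩) (B.map ⟨emb, emb_inj⟩)
    (by rw [Finset.card_map]; decide +kernel) (by rw [Finset.card_map]; decide +kernel)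
    (by rw [pdd_map, pdd_map, ipdd_eq])
  have key : ∀ p ∈ A, ∃ p' ∈ B, f (emb p) = emb p' := by
    intro p hp
    have : f (emb p) ∈ ((B.map ⟨emb, emb_inj⟩ : Finset _) : Set (EuclideanSpace ℝ (Fin 2))) := by
      rw [← hf]
      exact ⟨emb p, by simpa using ⟨p.1, p.2, hp, rfl⟩, rfl⟩
    simp only [Finset.coe_map, Set.mem_image, Finset.mem_coe, Function.Embedding.coeFn_mk] at this
    obtain ⟨p', hp', e⟩ := this
    exact ⟨p', hp', e.symm⟩
  have hq : ∀ p q p' q' : ℤ × ℤ, f (emb p) = emb p' → f (emb q) = emb q' → qf p' q' = qf p q := by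
    intro p q p' q' e1 e2
    have := f.dist_eq (emb p) (emb q)
    rw [e1, e2, dist_emb, dist_emb,
      Real.sqrt_inj (by exact_mod_cast qf_nonneg _ _) (by exact_mod_cast qf_nonneg _ _)] at this
    exact_mod_cast this
  obtain ⟨p, hp, ep⟩ := key (0,0) (by decide)
  obtain ⟨q, hq', eq⟩ := key (2,0) (by decide)
  obtain ⟨r, hr, er⟩ := key (3,0) (by decide)
  obtain ⟨s, hs, es⟩ := key (2,3) (by decide)
  exact no_quad p hp q hq' (hq _ _ _ _ ep eq) r hr (hq _ _ _ _ ep er) (hq _ _ _ _ eq er) s hs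
    ⟨hq _ _ _ _ ep es, hq _ _ _ _ eq es, hq _ _ _ _ er es⟩

end Pool.Agent.Results.MP_8766ea_co.PDDIncomplete
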